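import Pool.Agent.U996.FQ.Pairs

/-!
# Pairs of representations by four squares with equal values of the form: the count
-/

set_option autoImplicit false

namespace Pool.Agent.U996.FQ

open Finset

/-- the sum of the squares -/
def nn (v : Fin 4 → ℤ) : ℤ := v 0 ^ 2 + v 1 ^ 2 + v 2 ^ 2 + v 3 ^ 2

/-- the form -/
def ff (v : Fin 4 → ℤ) : ℤ := v 0 ^ 2 + 3 * v 1 ^ 2 + 5 * v 2 ^ 2 + 7 * v 3 ^ 2

/-- the box -/
noncomputable def box (s : ℕ) : Finset (Fin 4 → ℤ) := Fintype.piFinset fun _ => Icc (-(s : ℤ)) s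

/-- the pairs -/
noncomputable def PP (s : ℕ) : Finset ((Fin 4 → ℤ) × (Fin 4 → ℤ)) :=
  (box s ×ˢ box s).filter fun z => nn z.1 = nn z.2 ∧ ff z.1 = ff z.2

/-- the two differences -/
def dd (z : (Fin 4 → ℤ) × (Fin 4 → ℤ)) : ℤ × ℤ := (z.1 2 ^ 2 - z.2 2 ^ 2, z.1 3 ^ 2 - z.2 3 ^ 2)

theorem uu_dd (z : (Fin 4 → ℤ) × (Fin 4 → ℤ)) (h1 : nn z.1 = nn z.2) (h2 : ff z.1 = ff z.2) (i : Fin 4) :
    z.1 i ^ 2 - z.2 i ^ 2 = uu (dd z) i := by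
  unfold nn at h1
  unfold ff at h2
  unfold uu dd
  fin_cases i <;> simp <;> linarith

theorem sq_le' (s : ℕ) (a : ℤ) (ha : a ∈ Icc (-(s : ℤ)) s) : 0 ≤ a ^ 2 ∧ a ^ 2 ≤ (s : ℤ) ^ 2 := by
  rw [mem_Icc] at ha
  refine ⟨sq_nonneg a, ?_⟩
  have h0 : (0 : ℤ) ≤ s := Int.natCast_nonneg s
  nlinarith

theorem PP_le (s : ℕ) : (PP s).card ≤
    ∑ p ∈ Icc (-((s : ℤ) ^ 2)) ((s : ℤ) ^ 2) ×ˢ Icc (-((s : ℤ) ^ 2)) ((s : ℤ) ^ 2), ∏ i, (TT s (uu p i)).card := by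
  classical
  have hmap : ∀ z ∈ PP s, dd z ∈ Icc (-((s : ℤ) ^ 2)) ((s : ℤ) ^ 2) ×ˢ Icc (-((s : ℤ) ^ 2)) ((s : ℤ) ^ 2) := by
    intro z hz
    unfold PP at hz
    rw [mem_filter, mem_product] at hz
    obtain ⟨⟨hz1, hz2⟩, _⟩ := hz
    unfold box at hz1 hz2
    rw [Fintype.mem_piFinset] at hz1 hz2
    have a2 := sq_le' s _ (hz1 2)
    have a3 := sq_le' s _ (hz1 3)
    have b2 := sq_le' s _ (hz2 2)
    have b3 := sq_le' s _ (hz2 3)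
    unfold dd
    rw [mem_product, mem_Icc, mem_Icc]
    exact ⟨⟨by simp only; linarith, by simp only; linarith⟩, by simp only; linarith, by simp only; linarith⟩
  rw [Finset.card_eq_sum_card_fiberwise hmap]
  refine Finset.sum_le_sum fun p _ => ?_
  have e : ∏ i, (TT s (uu p i)).card = (Fintype.piFinset fun i => TT s (uu p i)).card := by
    rw [Fintype.card_piFinset]
  rw [e]
  refine Finset.card_le_card_of_injOn (fun z i => (z.1 i, z.2 i)) ?_ ?_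
  · intro z hz
    rw [Finset.mem_coe, mem_filter] at hz
    obtain ⟨hz1, hz2⟩ := hz
    unfold PP at hz1
    rw [mem_filter, mem_product] at hz1
    obtain ⟨⟨b1, b2⟩, h1, h2⟩ := hz1
    unfold box at b1 b2
    rw [Fintype.mem_piFinset] at b1 b2
    rw [Finset.mem_coe, Fintype.mem_piFinset]
    intro i
    unfold TT
    rw [mem_filter, mem_product]
    refine ⟨⟨b1 i, b2 i⟩, ?_⟩
    rw [← hz2]
    exact uu_dd z h1 h2 i
  · intro z _ z' _ h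
    refine Prod.ext (funext fun i => ?_) (funext fun i => ?_)
    · have := congrFun h i
      simp only [Prod.mk.injEq] at this
      exact this.1
    · have := congrFun h i
      simp only [Prod.mk.injEq] at this
      exact this.2

theorem G_le (s M : ℕ) : ((∑ x ∈ Icc (-(M : ℤ)) M, Tn s x ^ 4 : ℕ) : ℝ) ≤ 32 * (M * (1 + Real.log M) ^ 16) := by
  classical
  have h1 : ∀ x ∈ Icc (-(M : ℤ)) M, Tn s x ^ 4 ≤ if x = 0 then 0 else 16 * x.natAbs.divisors.card ^ 4 := by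
    intro x _
    unfold Tn
    split_ifs with h
    · exact le_rfl
    · calc (TT s x).card ^ 4 ≤ (2 * x.natAbs.divisors.card) ^ 4 := Nat.pow_le_pow_left (TT_le s x h) 4
        _ = _ := by ring
  have h2 : ∑ x ∈ Icc (-(M : ℤ)) M, (if x = 0 then 0 else 16 * x.natAbs.divisors.card ^ 4) ≤
      2 * ∑ n ∈ Icc 1 M, 16 * n.divisors.card ^ 4 := by
    have e1 : ∑ x ∈ Icc (-(M : ℤ)) M, (if x = 0 then 0 else 16 * x.natAbs.divisors.card ^ 4) =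
        ∑ x ∈ (Icc (-(M : ℤ)) M).filter (fun x => x ≠ 0), 16 * x.natAbs.divisors.card ^ 4 := by
      rw [Finset.sum_filter]
      refine Finset.sum_congr rfl fun x _ => ?_
      by_cases hx : x = 0 <;> simp [hx]
    have e2 : (Icc (-(M : ℤ)) M).filter (fun x => x ≠ 0) ⊆
        ((Icc 1 M).image fun n : ℕ => (n : ℤ)) ∪ ((Icc 1 M).image fun n : ℕ => -(n : ℤ)) := by
      intro x hx
      rw [mem_filter, mem_Icc] at hx
      rw [mem_union, mem_image, mem_image]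
      rcases lt_or_ge 0 x with h | h
      · left
        exact ⟨x.toNat, by rw [mem_Icc]; omega, by omega⟩
      · right
        exact ⟨(-x).toNat, by rw [mem_Icc]; omega, by omega⟩
    rw [e1]
    refine (Finset.sum_le_sum_of_subset e2).trans ?_
    have e3 : ∑ x ∈ ((Icc 1 M).image fun n : ℕ => (n : ℤ)) ∪ ((Icc 1 M).image fun n : ℕ => -(n : ℤ)),
        16 * x.natAbs.divisors.card ^ 4 ≤
        ∑ x ∈ ((Icc 1 M).image fun n : ℕ => (n : ℤ)), 16 * x.natAbs.divisors.card ^ 4 +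
        ∑ x ∈ ((Icc 1 M).image fun n : ℕ => -(n : ℤ)), 16 * x.natAbs.divisors.card ^ 4 := by
      have := Finset.sum_union_inter (s₁ := ((Icc 1 M).image fun n : ℕ => (n : ℤ)))
        (s₂ := ((Icc 1 M).image fun n : ℕ => -(n : ℤ))) (f := fun x : ℤ => 16 * x.natAbs.divisors.card ^ 4)
      omega
    refine e3.trans ?_
    rw [Finset.sum_image (fun a _ b _ h => by simpa using h), Finset.sum_image (fun a _ b _ h => by simpa using h),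
      two_mul]
    simp only [Int.natAbs_natCast, Int.natAbs_neg]
    exact le_rfl
  have h3 := (Finset.sum_le_sum h1).trans h2
  have h4 := Pool.Agent.TH935.LD.tau_pow_sum 4 M
  have h5 : ((∑ x ∈ Icc (-(M : ℤ)) M, Tn s x ^ 4 : ℕ) : ℝ) ≤ ((2 * ∑ n ∈ Icc 1 M, 16 * n.divisors.card ^ 4 : ℕ) : ℝ) := by
    exact_mod_cast h3
  refine h5.trans ?_
  push_cast
  rw [← Finset.mul_sum]
  norm_num at h4 ⊢
  linarith

/-- the bound -/
theorem PP_bound : ∃ C : ℝ, 0 < C ∧ ∀ s : ℕ, 1 ≤ s →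
    ((PP s).card : ℝ) ≤ C * ((s : ℝ) ^ 4 * (1 + Real.log (5 * (s : ℝ) ^ 2)) ^ 16) := by
  refine ⟨30000, by norm_num, fun s hs => ?_⟩
  have h1 := (PP_le s).trans (sum_le s ((s : ℤ) ^ 2))
  have h2 := G_le s (5 * s ^ 2)
  have hs1 : (1 : ℝ) ≤ s := by exact_mod_cast hs
  have hc : (Icc (-(5 * (s : ℤ) ^ 2)) (5 * (s : ℤ) ^ 2)).card = 10 * s ^ 2 + 1 := by
    rw [Int.card_Icc]
    have : (5 * (s : ℤ) ^ 2 + 1 - -(5 * (s : ℤ) ^ 2)) = ((10 * s ^ 2 + 1 : ℕ) : ℤ) := by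
      push_cast
      ring
    rw [this, Int.toNat_natCast]
  have e5 : (((5 * s ^ 2 : ℕ)) : ℤ) = 5 * (s : ℤ) ^ 2 := by push_cast; ring
  rw [e5] at h2
  rw [hc] at h1
  obtain ⟨G, hG⟩ : ∃ G : ℕ, G = ∑ x ∈ Icc (-(5 * (s : ℤ) ^ 2)) (5 * (s : ℤ) ^ 2), Tn s x ^ 4 := ⟨_, rfl⟩
  rw [← hG] at h1 h2
  have h3 : ((PP s).card : ℝ) ≤ (4 * s + 2) ^ 4 + (4 * (10 * s ^ 2 + 1) + 12 * (4 * s + 2)) * G := by
    exact_mod_cast h1
  obtain ⟨ℓ, hℓ⟩ : ∃ ℓ : ℝ, ℓ = (1 + Real.log (5 * (s : ℝ) ^ 2)) ^ 16 := ⟨_, rfl⟩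
  have h2' : (G : ℝ) ≤ 160 * ((s : ℝ) ^ 2 * ℓ) := by
    rw [hℓ]
    push_cast at h2
    linarith
  rw [← hℓ]
  have hl : 1 ≤ ℓ := by
    rw [hℓ]
    apply one_le_pow₀
    have : 0 ≤ Real.log (5 * (s : ℝ) ^ 2) := Real.log_nonneg (by nlinarith)
    linarith
  have h4 : (4 * (10 * (s : ℝ) ^ 2 + 1) + 12 * (4 * s + 2)) ≤ 116 * (s : ℝ) ^ 2 := by nlinarith
  have h5 : ((4 : ℝ) * s + 2) ^ 4 ≤ 1296 * (s : ℝ) ^ 4 := by
    calc ((4 : ℝ) * s + 2) ^ 4 ≤ (6 * s) ^ 4 := pow_le_pow_left₀ (by positivity) (by linarith) 4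
      _ = _ := by ring
  have h6 : (4 * (10 * (s : ℝ) ^ 2 + 1) + 12 * (4 * s + 2)) * G ≤ 116 * (s : ℝ) ^ 2 * (160 * ((s : ℝ) ^ 2 * ℓ)) :=
    mul_le_mul h4 h2' (Nat.cast_nonneg _) (by positivity)
  have h7 : (s : ℝ) ^ 4 ≤ (s : ℝ) ^ 4 * ℓ := le_mul_of_one_le_right (by positivity) hl
  calc ((PP s).card : ℝ) ≤ (4 * s + 2) ^ 4 + (4 * (10 * s ^ 2 + 1) + 12 * (4 * s + 2)) * G := h3
    _ ≤ 1296 * (s : ℝ) ^ 4 + 116 * (s : ℝ) ^ 2 * (160 * ((s : ℝ) ^ 2 * ℓ)) := add_le_add h5 h6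
    _ ≤ 1296 * ((s : ℝ) ^ 4 * ℓ) + 18560 * ((s : ℝ) ^ 4 * ℓ) := by
        have : 116 * (s : ℝ) ^ 2 * (160 * ((s : ℝ) ^ 2 * ℓ)) = 18560 * ((s : ℝ) ^ 4 * ℓ) := by ring
        linarith
    _ ≤ 30000 * ((s : ℝ) ^ 4 * ℓ) := by
        have : 0 ≤ (s : ℝ) ^ 4 * ℓ := by positivity
        linarith

end Pool.Agent.U996.FQ
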