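import Pool.Agent.U996.FQ.Count
import Pool.Agent.U996.GB.Sq

/-!
# Few exceptions: multiplicities of the values of the form on spheres, the divisor function
-/

set_option autoImplicit false

namespace Pool.Agent.U996.FQ

open Finset Filter Topology
open Pool.Agent.U996.UW Pool.Agent.U996.GB

/-- `F n` is true for few `n` -/
def Few (F : ℕ → Prop) : Prop := ∀ K : ℕ, ∀ᶠ i : ℕ in atTop,
  (Set.ncard {n : ℕ | (2 ^ i ≤ n ∧ n < 2 ^ (i + 1)) ∧ F n} : ℝ) * (i : ℝ) ^ K ≤ 2 ^ i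

theorem blk_fin (i : ℕ) (F : ℕ → Prop) : {n : ℕ | (2 ^ i ≤ n ∧ n < 2 ^ (i + 1)) ∧ F n}.Finite :=
  (Set.finite_Iio (2 ^ (i + 1))).subset fun _ hn => hn.1.2

theorem few_of (F : ℕ → Prop) (h : ∀ K : ℕ, ∃ F1 F2 : ℕ → Prop, (∀ᶠ n : ℕ in atTop, F n → F1 n ∨ F2 n) ∧
    (∀ᶠ i : ℕ in atTop, (Set.ncard {n : ℕ | (2 ^ i ≤ n ∧ n < 2 ^ (i + 1)) ∧ F1 n} : ℝ) * (i : ℝ) ^ K ≤ 2 ^ i) ∧
    (∀ᶠ i : ℕ in atTop, (Set.ncard {n : ℕ | (2 ^ i ≤ n ∧ n < 2 ^ (i + 1)) ∧ F2 n} : ℝ) * (i : ℝ) ^ K ≤ 2 ^ i)) :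
    Few F := by
  intro K
  obtain ⟨F1, F2, h0, h1, h2⟩ := h (K + 1)
  obtain ⟨n0, hn0⟩ := h0.exists_forall_of_atTop
  filter_upwards [h1, h2, eventually_ge_atTop n0, eventually_ge_atTop 2] with i a1 a2 a3 a4
  have hi2 : (2 : ℝ) ≤ i := by exact_mod_cast a4
  have h3 : Set.ncard {n : ℕ | (2 ^ i ≤ n ∧ n < 2 ^ (i + 1)) ∧ F n} ≤
      Set.ncard {n : ℕ | (2 ^ i ≤ n ∧ n < 2 ^ (i + 1)) ∧ F1 n} +
      Set.ncard {n : ℕ | (2 ^ i ≤ n ∧ n < 2 ^ (i + 1)) ∧ F2 n} := by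
    refine (Set.ncard_le_ncard ?_ ((blk_fin i F1).union (blk_fin i F2))).trans (Set.ncard_union_le _ _)
    rintro n ⟨b1, b2⟩
    have h4 : i < 2 ^ i := Nat.lt_two_pow_self
    rcases hn0 n (by omega) b2 with h5 | h5
    · exact Or.inl ⟨b1, h5⟩
    · exact Or.inr ⟨b1, h5⟩
  have h4 : (Set.ncard {n : ℕ | (2 ^ i ≤ n ∧ n < 2 ^ (i + 1)) ∧ F n} : ℝ) ≤
      Set.ncard {n : ℕ | (2 ^ i ≤ n ∧ n < 2 ^ (i + 1)) ∧ F1 n} +
      Set.ncard {n : ℕ | (2 ^ i ≤ n ∧ n < 2 ^ (i + 1)) ∧ F2 n} := by exact_mod_cast h3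
  have h5 := mul_le_mul_of_nonneg_right h4 (show (0 : ℝ) ≤ (i : ℝ) ^ (K + 1) by positivity)
  have h6 : (Set.ncard {n : ℕ | (2 ^ i ≤ n ∧ n < 2 ^ (i + 1)) ∧ F n} : ℝ) * ((i : ℝ) ^ K * i) ≤ 2 * 2 ^ i := by
    rw [← pow_succ]
    linarith
  have h7 : (0 : ℝ) ≤ (Set.ncard {n : ℕ | (2 ^ i ≤ n ∧ n < 2 ^ (i + 1)) ∧ F n} : ℝ) * (i : ℝ) ^ K := by positivity
  nlinarith

theorem few_or (F G : ℕ → Prop) (hF : Few F) (hG : Few G) : Few fun n => F n ∨ G n :=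
  few_of _ fun K => ⟨F, G, Eventually.of_forall fun _ h => h, hF K, hG K⟩

theorem few_mono (F G : ℕ → Prop) (hF : Few F) (h : ∀ᶠ n : ℕ in atTop, G n → F n) : Few G :=
  few_of _ fun K => ⟨F, F, h.mono fun _ h1 h2 => Or.inl (h1 h2), hF K, hF K⟩

/-- Markov's inequality -/
theorem markov (f : ℕ → ℝ) (hf : ∀ n, 0 ≤ f n) (a : ℕ) (C : ℝ)
    (h : ∀ᶠ i : ℕ in atTop, ∑ n ∈ Ico (2 ^ i) (2 ^ (i + 1)), f n ≤ C * ((2 : ℝ) ^ i * (i : ℝ) ^ a)) (K : ℕ) :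
    ∀ᶠ i : ℕ in atTop, (Set.ncard {n : ℕ | (2 ^ i ≤ n ∧ n < 2 ^ (i + 1)) ∧
      Real.log n ^ (K + a + 1) < f n} : ℝ) * (i : ℝ) ^ K ≤ 2 ^ i := by
  classical
  obtain ⟨B, hB⟩ : ∃ B : ℕ, C * 2 ^ (K + a + 1) ≤ B := ⟨⌈_⌉₊, Nat.le_ceil _⟩
  filter_upwards [h, eventually_ge_atTop (B + 1)] with i h1 h2
  have hi0 : (0 : ℝ) < i := by exact_mod_cast (by omega : 0 < i)
  have hiB : (B : ℝ) ≤ i := by exact_mod_cast (by omega : B ≤ i)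
  obtain ⟨I, hI⟩ : ∃ I : Finset ℕ, I = (Ico (2 ^ i) (2 ^ (i + 1))).filter
    (fun n : ℕ => Real.log n ^ (K + a + 1) < f n) := ⟨_, rfl⟩
  have e1 : {n : ℕ | (2 ^ i ≤ n ∧ n < 2 ^ (i + 1)) ∧ Real.log n ^ (K + a + 1) < f n} = (I : Set ℕ) := by
    ext n
    rw [hI]
    simp only [Set.mem_ofPred_eq, Finset.coe_filter, Finset.mem_Ico]
  rw [e1, Set.ncard_coe_finset]
  have h3 : ∀ n ∈ I, ((i : ℝ) / 2) ^ (K + a + 1) ≤ f n := by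
    intro n hn
    rw [hI, mem_filter, mem_Ico] at hn
    obtain ⟨⟨b1, _⟩, b2⟩ := hn
    refine le_trans ?_ b2.le
    refine pow_le_pow_left₀ (by positivity) ?_ _
    have h4 : ((2 ^ i : ℕ) : ℝ) ≤ n := by exact_mod_cast b1
    have h5 : Real.log ((2 ^ i : ℕ) : ℝ) ≤ Real.log n := Real.log_le_log (by positivity) h4
    rw [Nat.cast_pow, Real.log_pow, Nat.cast_ofNat] at h5
    have h6 := Real.log_two_gt_d9
    nlinarith
  have h4 : (I.card : ℝ) * ((i : ℝ) / 2) ^ (K + a + 1) ≤ C * ((2 : ℝ) ^ i * (i : ℝ) ^ a) := by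
    calc (I.card : ℝ) * ((i : ℝ) / 2) ^ (K + a + 1) = ∑ _n ∈ I, ((i : ℝ) / 2) ^ (K + a + 1) := by
          rw [Finset.sum_const, nsmul_eq_mul]
      _ ≤ ∑ n ∈ I, f n := Finset.sum_le_sum h3
      _ ≤ ∑ n ∈ Ico (2 ^ i) (2 ^ (i + 1)), f n := by
          rw [hI]
          exact Finset.sum_le_sum_of_subset_of_nonneg (Finset.filter_subset _ _) fun n _ _ => hf n
      _ ≤ _ := h1
  have hp : (0 : ℝ) < 2 ^ (K + a + 1) := by positivity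
  rw [div_pow, mul_div_assoc', div_le_iff₀ hp] at h4
  have h5 : (I.card : ℝ) * (i : ℝ) ^ K * ((i : ℝ) ^ a * i) ≤ (2 : ℝ) ^ i * ((i : ℝ) ^ a * i) := by
    calc (I.card : ℝ) * (i : ℝ) ^ K * ((i : ℝ) ^ a * i) = (I.card : ℝ) * (i : ℝ) ^ (K + a + 1) := by ring
      _ ≤ C * ((2 : ℝ) ^ i * (i : ℝ) ^ a) * 2 ^ (K + a + 1) := h4
      _ = (2 : ℝ) ^ i * (i : ℝ) ^ a * (C * 2 ^ (K + a + 1)) := by ring
      _ ≤ (2 : ℝ) ^ i * (i : ℝ) ^ a * i := mul_le_mul_of_nonneg_left (hB.trans hiB) (by positivity)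
      _ = _ := by ring
  exact le_of_mul_le_mul_right h5 (by positivity)

/-- the divisor function -/
theorem few_tau (K : ℕ) : ∀ᶠ i : ℕ in atTop, (Set.ncard {n : ℕ | (2 ^ i ≤ n ∧ n < 2 ^ (i + 1)) ∧
    Real.log n ^ (K + 2 + 1) < n.divisors.card} : ℝ) * (i : ℝ) ^ K ≤ 2 ^ i := by
  refine markov (fun n => (n.divisors.card : ℝ)) (fun n => Nat.cast_nonneg _) 2 18 ?_ K
  filter_upwards [eventually_ge_atTop 1] with i hi
  have hi1 : (1 : ℝ) ≤ i := by exact_mod_cast hi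
  have h1 := Pool.Agent.TH935.LD.tau_pow_sum 1 (2 ^ (i + 1))
  simp only [pow_one] at h1
  have h2 : ∑ n ∈ Ico (2 ^ i) (2 ^ (i + 1)), (n.divisors.card : ℝ) ≤ ∑ n ∈ Icc 1 (2 ^ (i + 1)), (n.divisors.card : ℝ) := by
    refine Finset.sum_le_sum_of_subset_of_nonneg ?_ fun n _ _ => Nat.cast_nonneg _
    intro n hn
    rw [mem_Ico] at hn
    rw [mem_Icc]
    have : 0 < 2 ^ i := by positivity
    omega
  refine h2.trans (h1.trans ?_)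
  have h3 : Real.log ((2 ^ (i + 1) : ℕ) : ℝ) ≤ 2 * i := by
    rw [Nat.cast_pow, Real.log_pow, Nat.cast_ofNat]
    have h6 := Real.log_two_lt_d9
    have h7 := Real.log_two_gt_d9
    push_cast
    nlinarith
  have h4 : 0 ≤ Real.log ((2 ^ (i + 1) : ℕ) : ℝ) := Real.log_natCast_nonneg _
  have h5 : (1 + Real.log ((2 ^ (i + 1) : ℕ) : ℝ)) ^ 2 ≤ (3 * i) ^ 2 :=
    pow_le_pow_left₀ (by linarith) (by linarith) 2
  calc ((2 ^ (i + 1) : ℕ) : ℝ) * (1 + Real.log ((2 ^ (i + 1) : ℕ) : ℝ)) ^ 2 ≤ ((2 ^ (i + 1) : ℕ) : ℝ) * (3 * i) ^ 2 :=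
        mul_le_mul_of_nonneg_left h5 (Nat.cast_nonneg _)
    _ = 18 * ((2 : ℝ) ^ i * (i : ℝ) ^ 2) := by push_cast; ring

theorem coord_sq (v : Fin 4 → ℤ) (i : Fin 4) : v i ^ 2 ≤ nn v := by
  have h0 := sq_nonneg (v 0)
  have h1 := sq_nonneg (v 1)
  have h2 := sq_nonneg (v 2)
  have h3 := sq_nonneg (v 3)
  unfold nn
  fin_cases i
  · show v 0 ^ 2 ≤ _
    linarith
  · show v 1 ^ 2 ≤ _
    linarith
  · show v 2 ^ 2 ≤ _
    linarith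
  · show v 3 ^ 2 ≤ _
    linarith

theorem mem_box (v : Fin 4 → ℤ) (n N : ℕ) (hv : nn v = n) (hn : n ≤ N) : v ∈ box (Nat.sqrt N) := by
  unfold box
  rw [Fintype.mem_piFinset]
  intro i
  have h1 := coord_sq v i
  rw [hv] at h1
  have h2 : (v i).natAbs ≤ Nat.sqrt N := by
    rw [Nat.le_sqrt']
    have h3 : (((v i).natAbs ^ 2 : ℕ) : ℤ) ≤ n := by
      rw [Nat.cast_pow, Int.natCast_natAbs, sq_abs]
      exact h1
    have h4 : (v i).natAbs ^ 2 ≤ n := by exact_mod_cast h3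
    omega
  rw [mem_Icc]
  omega

/-- the representations of `n` as a sum of four squares -/
noncomputable def FV (n : ℕ) : Finset (Fin 4 → ℤ) := (box (Nat.sqrt n)).filter fun v => nn v = n

theorem mem_FV (n : ℕ) (v : Fin 4 → ℤ) : v ∈ FV n ↔ nn v = n := by
  unfold FV
  rw [mem_filter]
  exact ⟨fun h => h.2, fun h => ⟨mem_box v n n h le_rfl, h⟩⟩

/-- the number of the pairs with equal values of the form -/
noncomputable def QQ (n : ℕ) : ℕ := ((FV n ×ˢ FV n).filter fun z => ff z.1 = ff z.2).card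

theorem QQ_sum (N : ℕ) (I : Finset ℕ) (hI : ∀ n ∈ I, n ≤ N) : ∑ n ∈ I, QQ n ≤ (PP (Nat.sqrt N)).card := by
  classical
  have e1 : ∑ n ∈ I, QQ n = (I.sigma fun n => (FV n ×ˢ FV n).filter fun z => ff z.1 = ff z.2).card := by
    rw [Finset.card_sigma]
    rfl
  rw [e1]
  refine Finset.card_le_card_of_injOn (fun x => x.2) ?_ ?_
  · intro x hx
    rw [Finset.mem_coe, Finset.mem_sigma, mem_filter, mem_product, mem_FV, mem_FV] at hx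
    obtain ⟨h1, ⟨h2, h3⟩, h4⟩ := hx
    rw [Finset.mem_coe]
    unfold PP
    rw [mem_filter, mem_product]
    exact ⟨⟨mem_box _ _ _ h2 (hI _ h1), mem_box _ _ _ h3 (hI _ h1)⟩, by rw [h2, h3], h4⟩
  · rintro ⟨n, z⟩ hx ⟨n', z'⟩ hx' h
    rw [Finset.mem_coe, Finset.mem_sigma, mem_filter, mem_product, mem_FV, mem_FV] at hx hx'
    simp only at h hx hx'
    subst h
    have : (n : ℤ) = n' := by rw [← hx.2.1.1, ← hx'.2.1.1]
    have h2 : n = n' := by exact_mod_cast this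
    subst h2
    rfl

/-- the pairs -/
theorem few_QQ (K : ℕ) : ∀ᶠ i : ℕ in atTop, (Set.ncard {n : ℕ | (2 ^ i ≤ n ∧ n < 2 ^ (i + 1)) ∧
    Real.log n ^ (K + 16 + 1) < QQ n / n} : ℝ) * (i : ℝ) ^ K ≤ 2 ^ i := by
  obtain ⟨C, hC, hPP⟩ := PP_bound
  refine markov (fun n => (QQ n : ℝ) / n) (fun n => by positivity) 16 (C * (4 * 6 ^ 16)) ?_ K
  filter_upwards [eventually_ge_atTop 1] with i hi
  have hi1 : (1 : ℝ) ≤ i := by exact_mod_cast hi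
  obtain ⟨s, hs⟩ : ∃ s : ℕ, s = Nat.sqrt (2 ^ (i + 1)) := ⟨_, rfl⟩
  have h2i : (0 : ℝ) < 2 ^ i := by positivity
  have hs2 : s ^ 2 ≤ 2 ^ (i + 1) := by rw [hs]; exact Nat.sqrt_le' _
  have hs1 : 1 ≤ s := by
    rw [hs, Nat.le_sqrt']
    exact Nat.one_le_two_pow
  have h1 : ∑ n ∈ Ico (2 ^ i) (2 ^ (i + 1)), (QQ n : ℝ) / n ≤ (∑ n ∈ Ico (2 ^ i) (2 ^ (i + 1)), (QQ n : ℝ)) / 2 ^ i := by
    rw [Finset.sum_div]
    refine Finset.sum_le_sum fun n hn => ?_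
    rw [mem_Ico] at hn
    have h3 : (2 : ℝ) ^ i ≤ n := by exact_mod_cast hn.1
    exact div_le_div_of_nonneg_left (Nat.cast_nonneg _) h2i h3
  have h2 : ∑ n ∈ Ico (2 ^ i) (2 ^ (i + 1)), (QQ n : ℝ) ≤ ((PP s).card : ℝ) := by
    have := QQ_sum (2 ^ (i + 1)) (Ico (2 ^ i) (2 ^ (i + 1))) (fun n hn => (mem_Ico.1 hn).2.le)
    rw [← hs] at this
    exact_mod_cast this
  have h3 := hPP s hs1
  have hs2r : (s : ℝ) ^ 2 ≤ 2 * 2 ^ i := by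
    have : ((s ^ 2 : ℕ) : ℝ) ≤ ((2 ^ (i + 1) : ℕ) : ℝ) := by exact_mod_cast hs2
    push_cast at this
    have e : (2 : ℝ) ^ (i + 1) = 2 * 2 ^ i := by ring
    rw [e] at this
    exact this
  have hs1r : (1 : ℝ) ≤ s := by exact_mod_cast hs1
  have h4 : Real.log (5 * (s : ℝ) ^ 2) ≤ i + 4 := by
    have h5 : 5 * (s : ℝ) ^ 2 ≤ 2 ^ (i + 4) := by
      rw [pow_add]
      norm_num
      linarith
    have h6 : Real.log (5 * (s : ℝ) ^ 2) ≤ Real.log (2 ^ (i + 4)) := Real.log_le_log (by positivity) h5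
    rw [Real.log_pow] at h6
    have h7 := Real.log_two_lt_d9
    push_cast at h6
    nlinarith
  have h5 : 0 ≤ Real.log (5 * (s : ℝ) ^ 2) := Real.log_nonneg (by nlinarith)
  have h6 : (1 + Real.log (5 * (s : ℝ) ^ 2)) ^ 16 ≤ (6 * i) ^ 16 :=
    pow_le_pow_left₀ (by linarith) (by linarith) 16
  have h7 : (s : ℝ) ^ 4 ≤ 4 * (2 ^ i * 2 ^ i) := by
    calc (s : ℝ) ^ 4 = (s : ℝ) ^ 2 * (s : ℝ) ^ 2 := by ring
      _ ≤ (2 * 2 ^ i) * (2 * 2 ^ i) := mul_le_mul hs2r hs2r (by positivity) (by positivity)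
      _ = _ := by ring
  calc ∑ n ∈ Ico (2 ^ i) (2 ^ (i + 1)), (QQ n : ℝ) / n ≤ ((PP s).card : ℝ) / 2 ^ i :=
        h1.trans (div_le_div_of_nonneg_right h2 h2i.le)
    _ ≤ C * ((4 * (2 ^ i * 2 ^ i)) * (6 * i) ^ 16) / 2 ^ i := by
        refine div_le_div_of_nonneg_right (h3.trans ?_) h2i.le
        exact mul_le_mul_of_nonneg_left (mul_le_mul h7 h6 (by positivity) (by positivity)) hC.le
    _ = C * (4 * 6 ^ 16) * ((2 : ℝ) ^ i * (i : ℝ) ^ 16) := by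
        field_simp

end Pool.Agent.U996.FQ
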