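import Pool.Agent.U996.FQ.Few
import Pool.Agent.U996.GB.TupleAe

/-!
# Prime values of the dilated form at representations by four squares: almost every dilation
-/

set_option autoImplicit false

namespace Pool.Agent.U996.FQ

open Finset MeasureTheory Filter Topology
open Pool.Agent.U996.UW Pool.Agent.U996.GB

/-- the value as a natural number -/
def fN (v : Fin 4 → ℤ) : ℕ := (ff v).toNat

theorem ff_bd (n : ℕ) (v : Fin 4 → ℤ) (hv : nn v = n) : (n : ℤ) ≤ ff v ∧ ff v ≤ 7 * n := by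
  unfold nn at hv
  unfold ff
  have h0 := sq_nonneg (v 0)
  have h1 := sq_nonneg (v 1)
  have h2 := sq_nonneg (v 2)
  have h3 := sq_nonneg (v 3)
  constructor <;> linarith

theorem fN_cast (n : ℕ) (v : Fin 4 → ℤ) (hv : nn v = n) : (fN v : ℤ) = ff v := by
  have h := ff_bd n v hv
  unfold fN
  exact Int.toNat_of_nonneg (le_trans (Int.natCast_nonneg n) h.1)

theorem fN_bd (n : ℕ) (v : Fin 4 → ℤ) (hv : nn v = n) : n ≤ fN v ∧ fN v ≤ 7 * n := by
  have h := ff_bd n v hv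
  rw [← fN_cast n v hv] at h
  omega

/-- the product of the indicators -/
noncomputable def gg {k : ℕ} (γ : Fin (k + 1) → ℝ) (h : Fin (k + 1) → ℤ) (m : ℕ) : ℝ :=
  ∏ j, pz (⌊γ j * (m : ℝ)⌋ + h j)

/-- the product of the densities -/
noncomputable def rr {k : ℕ} (γ : Fin (k + 1) → ℝ) (h : Fin (k + 1) → ℤ) (m : ℕ) : ℝ :=
  ∏ j, rz (⌊γ j * (m : ℝ)⌋ + h j)

open Classical in
/-- the representations in `A` -/
noncomputable def FA (A : Set (Fin 4 → ℤ)) (n : ℕ) : Finset (Fin 4 → ℤ) := (FV n).filter fun v => v ∈ A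

/-- the multiplicities -/
noncomputable def mu (A : Set (Fin 4 → ℤ)) (n m : ℕ) : ℕ := ((FA A n).filter fun v => fN v = m).card

theorem mem_FA (A : Set (Fin 4 → ℤ)) (n : ℕ) (v : Fin 4 → ℤ) : v ∈ FA A n ↔ nn v = n ∧ v ∈ A := by
  classical
  unfold FA
  rw [mem_filter, mem_FV]

theorem fib (A : Set (Fin 4 → ℤ)) (n : ℕ) (hn : 1 ≤ n) (F : ℕ → ℝ) :
    ∑ v ∈ FA A n, F (fN v) = ∑ m ∈ Icc 1 (7 * n), (mu A n m : ℝ) * F m := by
  have hmap : ∀ v ∈ FA A n, fN v ∈ Icc 1 (7 * n) := by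
    intro v hv
    rw [mem_FA] at hv
    have h := fN_bd n v hv.1
    rw [mem_Icc]
    omega
  rw [← Finset.sum_fiberwise_of_maps_to hmap]
  refine Finset.sum_congr rfl fun m _ => ?_
  have h1 : ∀ v ∈ (FA A n).filter (fun v => fN v = m), F (fN v) = F m := by
    intro v hv
    rw [mem_filter] at hv
    rw [hv.2]
  rw [Finset.sum_congr rfl h1, Finset.sum_const, nsmul_eq_mul]
  rfl

theorem mu_sq (A : Set (Fin 4 → ℤ)) (n : ℕ) (hn : 1 ≤ n) : ∑ m ∈ Icc 1 (7 * n), mu A n m ^ 2 ≤ QQ n := by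
  classical
  unfold QQ
  have hmap : ∀ z ∈ (FV n ×ˢ FV n).filter (fun z => ff z.1 = ff z.2), fN z.1 ∈ Icc 1 (7 * n) := by
    intro z hz
    rw [mem_filter, mem_product, mem_FV, mem_FV] at hz
    have h := fN_bd n z.1 hz.1.1
    rw [mem_Icc]
    omega
  rw [Finset.card_eq_sum_card_fiberwise hmap]
  refine Finset.sum_le_sum fun m _ => ?_
  have e : mu A n m ^ 2 = (((FA A n).filter fun v => fN v = m) ×ˢ ((FA A n).filter fun v => fN v = m)).card := by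
    rw [Finset.card_product, sq]
    rfl
  rw [e]
  refine Finset.card_le_card fun z hz => ?_
  rw [mem_product, mem_filter, mem_filter, mem_FA, mem_FA] at hz
  obtain ⟨⟨⟨h1, _⟩, h2⟩, ⟨h3, _⟩, h4⟩ := hz
  rw [mem_filter, mem_filter, mem_product, mem_FV, mem_FV]
  refine ⟨⟨⟨h1, h3⟩, ?_⟩, h2⟩
  rw [← fN_cast n z.1 h1, ← fN_cast n z.2 h3, h2, h4]

theorem mu_bd (A : Set (Fin 4 → ℤ)) (n m : ℕ) (h : mu A n m ≠ 0) : n ≤ m ∧ m ≤ 7 * n := by
  unfold mu at h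
  obtain ⟨v, hv⟩ := Finset.card_ne_zero.1 h
  rw [mem_filter, mem_FA] at hv
  rw [← hv.2]
  exact fN_bd n v hv.1.1

/-- the density at the values is uniform -/
theorem rr_lim {k : ℕ} (γ : Fin (k + 1) → ℝ) (hγ : ∀ i, 0 < γ i) (h : Fin (k + 1) → ℤ) (ε : ℝ) (hε : 0 < ε) :
    ∀ᶠ n : ℕ in atTop, ∀ m : ℕ, n ≤ m → m ≤ 7 * n → |rr γ h m * Real.log n ^ (k + 1) - 1| ≤ ε := by
  have f0 : Tendsto (fun m : ℕ => rr γ h m * Real.log m ^ (k + 1)) atTop (𝓝 1) := by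
    have h1 : ∀ j : Fin (k + 1), Tendsto (fun m : ℕ => rz (⌊γ j * (m : ℝ)⌋ + h j) * Real.log m) atTop (𝓝 1) := by
      intro j
      have h2 : Tendsto (fun n : ℕ => Real.log (n : ℝ) / Real.log n) atTop (𝓝 1) := by
        refine tendsto_const_nhds.congr' ?_
        filter_upwards [nlog.eventually_ge_atTop 1] with n hn
        rw [div_self (by linarith)]
      have h3 := rz_seq (fun n => (n : ℝ)) tendsto_natCast_atTop_atTop h2 1 le_rfl (γ j) (hγ j) (h j)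
      simpa only [pow_one, Nat.cast_one, div_one] using h3
    have h4 := tendsto_finsetProd (univ : Finset (Fin (k + 1))) fun j _ => h1 j
    simp only [Finset.prod_const_one] at h4
    refine h4.congr fun m => ?_
    unfold rr
    rw [Finset.prod_mul_distrib, Finset.prod_const, Finset.card_univ, Fintype.card_fin]
  obtain ⟨n0, hn0⟩ := (Metric.tendsto_atTop.1 f0) (ε / 2) (by positivity)
  have hl : ∀ᶠ n : ℕ in atTop, ((k + 1 : ℕ) : ℝ) * Real.log 7 * 2 / ε ≤ Real.log n := nlog.eventually_ge_atTop _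
  filter_upwards [hl, nlog.eventually_ge_atTop 1, eventually_ge_atTop n0, eventually_ge_atTop 1]
    with n h1 h2 h3 h4 m hm1 hm2
  have h5 := (hn0 m (by omega)).le
  rw [Real.dist_eq] at h5
  obtain ⟨ℓ, hℓ⟩ : ∃ ℓ : ℝ, ℓ = Real.log n := ⟨_, rfl⟩
  obtain ⟨L, hL⟩ : ∃ L : ℝ, L = Real.log m := ⟨_, rfl⟩
  rw [← hℓ] at h1 h2 ⊢
  rw [← hL] at h5
  have hn1 : (1 : ℝ) ≤ n := by exact_mod_cast h4
  have hm0 : (n : ℝ) ≤ m := by exact_mod_cast hm1
  have hlL : ℓ ≤ L := by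
    rw [hℓ, hL]
    exact Real.log_le_log (by linarith) hm0
  have hLl : L ≤ Real.log 7 + ℓ := by
    rw [hℓ, hL, ← Real.log_mul (by norm_num) (by linarith)]
    refine Real.log_le_log (by linarith) ?_
    exact_mod_cast hm2
  have hL0 : 0 < L := by linarith
  obtain ⟨y, hy⟩ : ∃ y : ℝ, y = (ℓ / L) ^ (k + 1) := ⟨_, rfl⟩
  have hy1 : y ≤ 1 := by
    rw [hy]
    exact pow_le_one₀ (by positivity) ((div_le_one hL0).2 hlL)
  have hy0 : 0 ≤ y := by rw [hy]; positivity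
  have hy2 : 1 - ε / 2 ≤ y := by
    have b1 : 1 + ((k + 1 : ℕ) : ℝ) * (ℓ / L - 1) ≤ (1 + (ℓ / L - 1)) ^ (k + 1) := by
      apply one_add_mul_le_pow
      have : 0 ≤ ℓ / L := by positivity
      linarith
    rw [add_sub_cancel, ← hy] at b1
    have b2 : 1 - ℓ / L ≤ Real.log 7 / ℓ := by
      rw [one_sub_div hL0.ne']
      exact div_le_div₀ (Real.log_nonneg (by norm_num)) (by linarith) (by linarith) hlL
    have b3 : ((k + 1 : ℕ) : ℝ) * (Real.log 7 / ℓ) ≤ ε / 2 := by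
      rw [div_le_iff₀ hε] at h1
      rw [mul_div_assoc', div_le_iff₀ (by linarith)]
      linarith
    have b4 : (0 : ℝ) ≤ ((k + 1 : ℕ) : ℝ) := Nat.cast_nonneg _
    nlinarith
  have e1 : rr γ h m * ℓ ^ (k + 1) = (rr γ h m * L ^ (k + 1)) * y := by
    rw [hy, div_pow]
    field_simp
  rw [e1]
  obtain ⟨X, hX⟩ : ∃ X : ℝ, X = rr γ h m * L ^ (k + 1) := ⟨_, rfl⟩
  rw [← hX] at h5 ⊢
  have e2 : X * y - 1 = (X - 1) * y - (1 - y) := by ring
  rw [e2]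
  calc |(X - 1) * y - (1 - y)| ≤ |(X - 1) * y| + |1 - y| := abs_sub _ _
    _ = |X - 1| * y + (1 - y) := by rw [abs_mul, abs_of_nonneg hy0, abs_of_nonneg (by linarith : 0 ≤ 1 - y)]
    _ ≤ ε / 2 * 1 + ε / 2 := by
        refine add_le_add (mul_le_mul h5 hy1 hy0 (by positivity)) (by linarith)
    _ = ε := by ring

theorem split (T : Finset ℕ) (a : ℕ → ℕ) (g ρ : ℕ → ℝ) (hg : ∀ m, 0 ≤ g m ∧ g m ≤ 1)
    (hρ : ∀ m, 0 ≤ ρ m ∧ ρ m ≤ 1) (U : ℝ) (hU : 0 < U) :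
    |∑ m ∈ T, (a m : ℝ) * g m - ∑ m ∈ T, (a m : ℝ) * ρ m| ≤
      (∑ m ∈ T, (a m : ℝ) ^ 2) / U + U * |∑ m ∈ T, (min (a m : ℝ) U / U) * (g m - ρ m)| := by
  have e1 : ∑ m ∈ T, (a m : ℝ) * g m - ∑ m ∈ T, (a m : ℝ) * ρ m =
      ∑ m ∈ T, ((a m : ℝ) - min (a m : ℝ) U) * (g m - ρ m) +
      U * ∑ m ∈ T, (min (a m : ℝ) U / U) * (g m - ρ m) := by
    rw [Finset.mul_sum, ← Finset.sum_add_distrib, ← Finset.sum_sub_distrib]
    refine Finset.sum_congr rfl fun m _ => ?_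
    field_simp
    ring
  rw [e1]
  refine (abs_add_le _ _).trans (add_le_add ?_ (le_of_eq ?_))
  · refine (Finset.abs_sum_le_sum_abs _ _).trans ?_
    rw [Finset.sum_div]
    refine Finset.sum_le_sum fun m _ => ?_
    have h1 : |g m - ρ m| ≤ 1 := by
      rw [abs_le]
      have := hg m
      have := hρ m
      constructor <;> linarith
    have h2 : 0 ≤ (a m : ℝ) - min (a m : ℝ) U := by
      have := min_le_left (a m : ℝ) U
      linarith
    have h3 : (a m : ℝ) - min (a m : ℝ) U ≤ (a m : ℝ) ^ 2 / U := by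
      have ha : (0 : ℝ) ≤ a m := Nat.cast_nonneg _
      rcases le_total (a m : ℝ) U with h | h
      · rw [min_eq_left h, sub_self]
        positivity
      · rw [min_eq_right h, le_div_iff₀ hU]
        nlinarith
    rw [abs_mul, abs_of_nonneg h2]
    calc ((a m : ℝ) - min (a m : ℝ) U) * |g m - ρ m| ≤ ((a m : ℝ) - min (a m : ℝ) U) * 1 :=
          mul_le_mul_of_nonneg_left h1 h2
      _ ≤ _ := by rw [mul_one]; exact h3
  · rw [abs_mul, abs_of_pos hU]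

theorem gg_bd {k : ℕ} (γ : Fin (k + 1) → ℝ) (h : Fin (k + 1) → ℤ) (m : ℕ) : 0 ≤ gg γ h m ∧ gg γ h m ≤ 1 :=
  ⟨Finset.prod_nonneg fun _ _ => pz_nonneg _, Finset.prod_le_one (fun _ _ => pz_nonneg _) fun _ _ => pz_le_one _⟩

theorem rr_bd {k : ℕ} (γ : Fin (k + 1) → ℝ) (h : Fin (k + 1) → ℤ) (m : ℕ) : 0 ≤ rr γ h m ∧ rr γ h m ≤ 1 :=
  ⟨Finset.prod_nonneg fun _ _ => rz_nonneg _, Finset.prod_le_one (fun _ _ => rz_nonneg _) fun _ _ => rz_le_one _⟩

theorem pos_meas (k : ℕ) : MeasurableSet {α : Fin k → ℝ | ∀ i, 0 < α i} := by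
  have e : {α : Fin k → ℝ | ∀ i, 0 < α i} = Set.pi Set.univ (fun _ => Set.Ioi (0 : ℝ)) := by
    ext α
    simp
  rw [e]
  exact MeasurableSet.univ_pi fun _ => measurableSet_Ioi

/-- the truncated weights -/
noncomputable def wt (A : ℕ → Set (Fin 4 → ℤ)) (D n m : ℕ) : ℝ :=
  min (mu (A n) n m : ℝ) (Real.log n ^ D) / Real.log n ^ D

theorem wt_le (A : ℕ → Set (Fin 4 → ℤ)) (D n m : ℕ) : |wt A D n m| ≤ 1 := by
  unfold wt
  have h1 : 0 ≤ Real.log n ^ D := pow_nonneg (Real.log_natCast_nonneg _) _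
  have h2 : (0 : ℝ) ≤ mu (A n) n m := Nat.cast_nonneg _
  rcases h1.eq_or_lt with h | h
  · rw [← h, div_zero, abs_zero]
    exact zero_le_one
  · rw [abs_of_nonneg (div_nonneg (le_min h2 h1) h1), div_le_one h]
    exact min_le_right _ _

theorem er_law (k : ℕ) (w : ℕ → ℕ → ℝ) (hw : ∀ n s, |w n s| ≤ 1) (R : Set ℕ) :
    ∀ᵐ γ : Fin (k + 1) → ℝ, (∀ i, 0 < γ i) → ∀ (h : Fin (k + 1) → ℤ) (K : ℕ), ∀ᶠ i : ℕ in atTop,
      (((dy R i).filter fun n : ℕ => (n : ℝ) / Real.log n ^ K <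
        |∑ m ∈ Icc 1 (7 * n), w n m * (gg γ h m - rr γ h m)|).card : ℝ) * i ^ K ≤ (dy R i).card := by
  have h1 := tuple_ae k (fun _ => 1) (fun _ => one_pos) (fun n => Icc 1 (7 * n)) w hw (fun _ _ m => m)
    (fun n => 7 * n) (fun _ n s hs => by rw [mem_Icc] at hs; exact hs) (fun _ _ _ _ _ _ h => h) 7 0
    (Eventually.of_forall fun n => ⟨by omega, by push_cast; simp⟩) R
  rw [ae_restrict_iff' (pos_meas (k + 1))] at h1
  filter_upwards [h1] with γ h2 hγ h K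
  have h3 := h2 hγ h K
  unfold er3 at h3
  simp only [Real.rpow_one] at h3
  exact h3

/-- the sum over the representations in `A` -/
noncomputable def RR {k : ℕ} (γ : Fin (k + 1) → ℝ) (h : Fin (k + 1) → ℤ) (A : Set (Fin 4 → ℤ)) (n : ℕ) : ℝ :=
  ∑ v ∈ FA A n, gg γ h (fN v)

theorem dy_univ' (i : ℕ) : (dy Set.univ i).card = 2 ^ i := by
  classical
  have e : dy Set.univ i = Ico (2 ^ i) (2 ^ (i + 1)) := by
    ext n
    unfold dy
    simp
  rw [e, Nat.card_Ico, pow_succ]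
  omega

/-- the law for representations with multiplicities -/
theorem law (k : ℕ) (A : ℕ → Set (Fin 4 → ℤ)) :
    ∀ᵐ γ : Fin (k + 1) → ℝ, (∀ i, 0 < γ i) → ∀ (h : Fin (k + 1) → ℤ) (ε : ℝ), 0 < ε → ∀ K : ℕ,
      Few fun n => ¬ |RR γ h (A n) n * Real.log n ^ (k + 1) - (FA (A n) n).card| ≤
        ε * (FA (A n) n).card + n / Real.log n ^ K := by
  classical
  have h1 : ∀ D : ℕ, ∀ᵐ γ : Fin (k + 1) → ℝ, (∀ i, 0 < γ i) → ∀ (h : Fin (k + 1) → ℤ) (K : ℕ),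
      ∀ᶠ i : ℕ in atTop, (((dy Set.univ i).filter fun n : ℕ => (n : ℝ) / Real.log n ^ K <
        |∑ m ∈ Icc 1 (7 * n), wt A D n m * (gg γ h m - rr γ h m)|).card : ℝ) * i ^ K ≤ (dy Set.univ i).card :=
    fun D => er_law k (wt A D) (wt_le A D) Set.univ
  filter_upwards [ae_all_iff.2 h1] with γ h2 hγ h ε hε K
  refine few_of _ fun K0 => ?_
  obtain ⟨E, hE⟩ : ∃ E : ℕ, E = K0 + 16 + 1 := ⟨_, rfl⟩
  obtain ⟨D, hD⟩ : ∃ D : ℕ, D = E + K + k + 2 := ⟨_, rfl⟩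
  obtain ⟨K1, hK1⟩ : ∃ K1 : ℕ, K1 = D + K + k + 2 + K0 := ⟨_, rfl⟩
  refine ⟨fun n => Real.log n ^ E < QQ n / n, fun n => (n : ℝ) / Real.log n ^ K1 <
    |∑ m ∈ Icc 1 (7 * n), wt A D n m * (gg γ h m - rr γ h m)|, ?_, ?_, ?_⟩
  · filter_upwards [rr_lim γ hγ h ε hε, nlog.eventually_ge_atTop 2, eventually_ge_atTop 1] with n a1 a2 a3
    contrapose!
    rintro ⟨b1, b2⟩
    obtain ⟨ℓ, hℓ⟩ : ∃ ℓ : ℝ, ℓ = Real.log n := ⟨_, rfl⟩
    rw [← hℓ] at a1 a2 b1 b2 ⊢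
    have hn0 : (0 : ℝ) < n := by exact_mod_cast a3
    have hℓ0 : 0 < ℓ := by linarith
    have hU : 0 < ℓ ^ D := by positivity
    have c1 := split (Icc 1 (7 * n)) (mu (A n) n) (gg γ h) (rr γ h) (gg_bd γ h) (rr_bd γ h) (ℓ ^ D) hU
    have c2 : (∑ m ∈ Icc 1 (7 * n), (mu (A n) n m : ℝ) ^ 2) ≤ ℓ ^ E * n := by
      have d1 := mu_sq (A n) n a3
      have d2 : (∑ m ∈ Icc 1 (7 * n), (mu (A n) n m : ℝ) ^ 2) ≤ QQ n := by exact_mod_cast d1
      rw [div_le_iff₀ hn0] at b1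
      exact d2.trans b1
    have c3 : ∑ m ∈ Icc 1 (7 * n), (min (mu (A n) n m : ℝ) (ℓ ^ D) / ℓ ^ D) * (gg γ h m - rr γ h m) =
        ∑ m ∈ Icc 1 (7 * n), wt A D n m * (gg γ h m - rr γ h m) := by
      unfold wt
      rw [hℓ]
    rw [c3] at c1
    have c4 : RR γ h (A n) n = ∑ m ∈ Icc 1 (7 * n), (mu (A n) n m : ℝ) * gg γ h m := fib (A n) n a3 _
    have c5 : ((FA (A n) n).card : ℝ) = ∑ m ∈ Icc 1 (7 * n), (mu (A n) n m : ℝ) := by
      have := fib (A n) n a3 (fun _ => 1)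
      simpa using this
    have c6 : |RR γ h (A n) n - ∑ m ∈ Icc 1 (7 * n), (mu (A n) n m : ℝ) * rr γ h m| ≤ 2 * (n / ℓ ^ (K + k + 2)) := by
      rw [c4]
      refine c1.trans ?_
      have d1 : (∑ m ∈ Icc 1 (7 * n), (mu (A n) n m : ℝ) ^ 2) / ℓ ^ D ≤ n / ℓ ^ (K + k + 2) := by
        rw [div_le_div_iff₀ hU (by positivity)]
        calc (∑ m ∈ Icc 1 (7 * n), (mu (A n) n m : ℝ) ^ 2) * ℓ ^ (K + k + 2) ≤ ℓ ^ E * n * ℓ ^ (K + k + 2) :=
              mul_le_mul_of_nonneg_right c2 (by positivity)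
          _ = n * ℓ ^ D := by
              rw [hD]
              ring
      have d2 : ℓ ^ D * |∑ m ∈ Icc 1 (7 * n), wt A D n m * (gg γ h m - rr γ h m)| ≤ n / ℓ ^ (K + k + 2) := by
        calc ℓ ^ D * |∑ m ∈ Icc 1 (7 * n), wt A D n m * (gg γ h m - rr γ h m)| ≤ ℓ ^ D * (n / ℓ ^ K1) :=
              mul_le_mul_of_nonneg_left b2 hU.le
          _ ≤ n / ℓ ^ (K + k + 2) := by
              rw [mul_div_assoc', div_le_div_iff₀ (by positivity) (by positivity)]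
              have e1 : ℓ ^ D * n * ℓ ^ (K + k + 2) = n * ℓ ^ (D + K + k + 2) := by ring
              rw [e1]
              refine mul_le_mul_of_nonneg_left ?_ hn0.le
              exact pow_le_pow_right₀ (by linarith) (by omega)
      linarith
    have c7 : |(∑ m ∈ Icc 1 (7 * n), (mu (A n) n m : ℝ) * rr γ h m) * ℓ ^ (k + 1) - (FA (A n) n).card| ≤
        ε * (FA (A n) n).card := by
      rw [c5, Finset.sum_mul, ← Finset.sum_sub_distrib, Finset.mul_sum]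
      refine (Finset.abs_sum_le_sum_abs _ _).trans (Finset.sum_le_sum fun m _ => ?_)
      rcases Nat.eq_zero_or_pos (mu (A n) n m) with h0 | h0
      · rw [h0]
        simp
      · have d1 := mu_bd (A n) n m h0.ne'
        have d2 := a1 m d1.1 d1.2
        have e1 : (mu (A n) n m : ℝ) * rr γ h m * ℓ ^ (k + 1) - mu (A n) n m =
            mu (A n) n m * (rr γ h m * ℓ ^ (k + 1) - 1) := by ring
        rw [e1, abs_mul, Nat.abs_cast, mul_comm]
        exact mul_le_mul_of_nonneg_right d2 (Nat.cast_nonneg _)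
    have c8 : 2 * (n / ℓ ^ (K + k + 2)) * ℓ ^ (k + 1) ≤ n / ℓ ^ K := by
      have e1 : 2 * (n / ℓ ^ (K + k + 2)) * ℓ ^ (k + 1) = n / ℓ ^ K * (2 / ℓ) := by
        field_simp
        ring
      rw [e1]
      refine mul_le_of_le_one_right (by positivity) ?_
      rw [div_le_one hℓ0]
      exact a2
    obtain ⟨S, hS⟩ : ∃ S : ℝ, S = ∑ m ∈ Icc 1 (7 * n), (mu (A n) n m : ℝ) * rr γ h m := ⟨_, rfl⟩
    rw [← hS] at c6 c7
    have e1 : RR γ h (A n) n * ℓ ^ (k + 1) - (FA (A n) n).card =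
        (RR γ h (A n) n - S) * ℓ ^ (k + 1) + (S * ℓ ^ (k + 1) - (FA (A n) n).card) := by ring
    rw [e1]
    have c9 : |(RR γ h (A n) n - S) * ℓ ^ (k + 1)| ≤ n / ℓ ^ K := by
      rw [abs_mul, abs_of_pos (by positivity : 0 < ℓ ^ (k + 1))]
      exact (mul_le_mul_of_nonneg_right c6 (by positivity)).trans c8
    calc |(RR γ h (A n) n - S) * ℓ ^ (k + 1) + (S * ℓ ^ (k + 1) - (FA (A n) n).card)| ≤
          |(RR γ h (A n) n - S) * ℓ ^ (k + 1)| + |S * ℓ ^ (k + 1) - (FA (A n) n).card| := abs_add_le _ _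
      _ ≤ _ := by linarith
  · rw [hE]
    exact few_QQ K0
  · filter_upwards [h2 D hγ h K1, eventually_ge_atTop 1] with i a1 a2
    have hi1 : (1 : ℝ) ≤ i := by exact_mod_cast a2
    have e1 : {n : ℕ | (2 ^ i ≤ n ∧ n < 2 ^ (i + 1)) ∧ (n : ℝ) / Real.log n ^ K1 <
        |∑ m ∈ Icc 1 (7 * n), wt A D n m * (gg γ h m - rr γ h m)|} =
        (((dy Set.univ i).filter fun n : ℕ => (n : ℝ) / Real.log n ^ K1 <
        |∑ m ∈ Icc 1 (7 * n), wt A D n m * (gg γ h m - rr γ h m)| : Finset ℕ) : Set ℕ) := by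
      ext n
      unfold dy
      simp only [Set.mem_ofPred_eq, Finset.coe_filter, Finset.mem_filter, Finset.mem_Ico, Set.mem_univ, and_true]
    rw [e1, Set.ncard_coe_finset]
    rw [dy_univ'] at a1
    have h5 : (i : ℝ) ^ K0 ≤ (i : ℝ) ^ K1 := pow_le_pow_right₀ hi1 (by omega)
    have h6 := mul_le_mul_of_nonneg_left h5 (Nat.cast_nonneg ((dy Set.univ i).filter fun n : ℕ =>
      (n : ℝ) / Real.log n ^ K1 < |∑ m ∈ Icc 1 (7 * n), wt A D n m * (gg γ h m - rr γ h m)|).card : (0 : ℝ) ≤ _)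
    push_cast at a1
    exact h6.trans a1

end Pool.Agent.U996.FQ
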