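import Mathlib
import Pool.Agent.TH935.LP.L1

/-!
# Pairs of integral vectors with equal values of two diagonal quadratic forms
-/

set_option autoImplicit false

namespace Pool.Agent.U996.FQ

open Finset

/-- the pairs `(a, b)`, `|a|, |b| ≤ s`, with `a ^ 2 - b ^ 2 = u` -/
noncomputable def TT (s : ℕ) (u : ℤ) : Finset (ℤ × ℤ) :=
  (Icc (-(s : ℤ)) s ×ˢ Icc (-(s : ℤ)) s).filter fun p => p.1 ^ 2 - p.2 ^ 2 = u

theorem TT_le (s : ℕ) (u : ℤ) (hu : u ≠ 0) : (TT s u).card ≤ 2 * u.natAbs.divisors.card := by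
  classical
  obtain ⟨D, hD⟩ : ∃ D : Finset ℤ, D = (u.natAbs.divisors.image fun d : ℕ => (d : ℤ)) ∪
      (u.natAbs.divisors.image fun d : ℕ => -(d : ℤ)) := ⟨_, rfl⟩
  have h1 : D.card ≤ 2 * u.natAbs.divisors.card := by
    rw [hD, two_mul]
    exact (Finset.card_union_le _ _).trans (Nat.add_le_add Finset.card_image_le Finset.card_image_le)
  refine le_trans ?_ h1
  refine Finset.card_le_card_of_injOn (fun p => p.1 - p.2) ?_ ?_
  · intro p hp
    rw [Finset.mem_coe] at hp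
    unfold TT at hp
    rw [mem_filter] at hp
    have h2 : p.1 - p.2 ∣ u := ⟨p.1 + p.2, by rw [← hp.2]; ring⟩
    have h3 : (p.1 - p.2).natAbs ∈ u.natAbs.divisors := by
      rw [Nat.mem_divisors]
      exact ⟨Int.natAbs_dvd_natAbs.2 h2, Int.natAbs_ne_zero.2 hu⟩
    rw [Finset.mem_coe, hD, mem_union, mem_image, mem_image]
    rcases le_total 0 (p.1 - p.2) with h4 | h4
    · left
      exact ⟨_, h3, by rw [Int.natCast_natAbs, abs_of_nonneg h4]⟩
    · right
      exact ⟨_, h3, by rw [Int.natCast_natAbs, abs_of_nonpos h4, neg_neg]⟩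
  · intro p hp q hq hpq
    rw [Finset.mem_coe] at hp hq
    unfold TT at hp hq
    rw [mem_filter] at hp hq
    simp only at hpq
    have h2 : (p.1 - p.2) * (p.1 + p.2) = (p.1 - p.2) * (q.1 + q.2) := by
      have e1 : (p.1 - p.2) * (p.1 + p.2) = u := by rw [← hp.2]; ring
      have e2 : (p.1 - p.2) * (q.1 + q.2) = u := by rw [hpq, ← hq.2]; ring
      rw [e1, e2]
    have h3 : p.1 - p.2 ≠ 0 := by
      intro h
      apply hu
      rw [← hp.2]
      have : p.1 = p.2 := by linarith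
      rw [this]
      ring
    have h4 := mul_left_cancel₀ h3 h2
    exact Prod.ext (by linarith) (by linarith)

theorem TT_zero (s : ℕ) : (TT s 0).card ≤ 4 * s + 2 := by
  classical
  have h1 : TT s 0 ⊆ ((Icc (-(s : ℤ)) s).image fun a => (a, a)) ∪ ((Icc (-(s : ℤ)) s).image fun a => (a, -a)) := by
    intro p hp
    unfold TT at hp
    rw [mem_filter, mem_product] at hp
    obtain ⟨⟨hp1, _⟩, hp2⟩ := hp
    have h2 : (p.1 - p.2) * (p.1 + p.2) = 0 := by linarith [hp2]
    rw [mem_union, mem_image, mem_image]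
    rcases mul_eq_zero.1 h2 with h3 | h3
    · left
      exact ⟨p.1, hp1, Prod.ext rfl (by simp only; linarith)⟩
    · right
      exact ⟨p.1, hp1, Prod.ext rfl (by simp only; linarith)⟩
  refine (Finset.card_le_card h1).trans ((Finset.card_union_le _ _).trans ?_)
  have h2 : (Icc (-(s : ℤ)) s).card = 2 * s + 1 := by
    rw [Int.card_Icc]
    omega
  have h3 := Finset.card_image_le (s := Icc (-(s : ℤ)) s) (f := fun a => (a, a))
  have h4 := Finset.card_image_le (s := Icc (-(s : ℤ)) s) (f := fun a => (a, -a))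
  omega

/-- the four values which have the weighted sums zero -/
def uu (p : ℤ × ℤ) : Fin 4 → ℤ := ![p.1 + 2 * p.2, -(2 * p.1 + 3 * p.2), p.1, p.2]

theorem uu_inj (i j : Fin 4) (hij : i ≠ j) (p q : ℤ × ℤ) (h1 : uu p i = uu q i) (h2 : uu p j = uu q j) :
    p = q := by
  unfold uu at h1 h2
  fin_cases i <;> fin_cases j <;> simp at hij h1 h2 <;> exact Prod.ext (by linarith) (by linarith)

theorem uu_le (N : ℤ) (p : ℤ × ℤ) (hp : p ∈ Icc (-N) N ×ˢ Icc (-N) N) (i : Fin 4) : uu p i ∈ Icc (-(5 * N)) (5 * N) := by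
  rw [mem_product, mem_Icc, mem_Icc] at hp
  rw [mem_Icc]
  unfold uu
  fin_cases i <;> simp <;> constructor <;> linarith

theorem sum_two (N : ℤ) (F H : ℤ → ℕ) (i j : Fin 4) (hij : i ≠ j) :
    ∑ p ∈ Icc (-N) N ×ˢ Icc (-N) N, F (uu p i) * H (uu p j) ≤
      (∑ x ∈ Icc (-(5 * N)) (5 * N), F x) * ∑ y ∈ Icc (-(5 * N)) (5 * N), H y := by
  classical
  rw [Finset.sum_mul_sum, ← Finset.sum_product']
  have h1 : ∑ p ∈ Icc (-N) N ×ˢ Icc (-N) N, F (uu p i) * H (uu p j) =
      ∑ z ∈ (Icc (-N) N ×ˢ Icc (-N) N).image (fun p => (uu p i, uu p j)), F z.1 * H z.2 := by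
    rw [Finset.sum_image]
    intro p _ q _ hpq
    simp only [Prod.mk.injEq] at hpq
    exact uu_inj i j hij p q hpq.1 hpq.2
  rw [h1]
  refine Finset.sum_le_sum_of_subset ?_
  intro z hz
  rw [mem_image] at hz
  obtain ⟨p, hp, rfl⟩ := hz
  rw [mem_product]
  exact ⟨uu_le N p hp i, uu_le N p hp j⟩

theorem prod_le_four {ι : Type} (s : Finset ι) (hs : s.Nonempty) (h4 : s.card ≤ 4) (x : ι → ℕ) :
    ∏ i ∈ s, x i ≤ ∑ i ∈ s, x i ^ 4 := by
  obtain ⟨m, hm, hmax⟩ := s.exists_max_image x hs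
  rcases Nat.eq_zero_or_pos (x m) with h0 | h0
  · have h1 : ∏ i ∈ s, x i = 0 := Finset.prod_eq_zero hm h0
    rw [h1]
    exact Nat.zero_le _
  · calc ∏ i ∈ s, x i ≤ ∏ _i ∈ s, x m := Finset.prod_le_prod' fun i hi => hmax i hi
      _ = x m ^ s.card := by rw [Finset.prod_const]
      _ ≤ x m ^ 4 := Nat.pow_le_pow_right h0 h4
      _ ≤ ∑ i ∈ s, x i ^ 4 := Finset.single_le_sum (f := fun i => x i ^ 4) (fun i _ => Nat.zero_le _) hm

/-- the value, `0` at `0` -/
noncomputable def Tn (s : ℕ) (u : ℤ) : ℕ := if u = 0 then 0 else (TT s u).card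

theorem pt_le (s : ℕ) (p : ℤ × ℤ) (hp : p ≠ 0) : ∏ i, (TT s (uu p i)).card ≤
    ∑ i, Tn s (uu p i) ^ 4 * 1 + (4 * s + 2) * ∑ j, ∑ i ∈ univ.erase j, Tn s (uu p i) ^ 4 * (if uu p j = 0 then 1 else 0) := by
  by_cases h : ∃ j, uu p j = 0
  · obtain ⟨j, hj⟩ := h
    have h1 : ∀ i ∈ univ.erase j, (TT s (uu p i)).card = Tn s (uu p i) := by
      intro i hi
      rw [mem_erase] at hi
      unfold Tn
      rw [if_neg]
      intro h0
      apply hp
      refine uu_inj i j hi.1 p 0 ?_ ?_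
      · rw [h0]
        unfold uu
        fin_cases i <;> simp
      · rw [hj]
        unfold uu
        fin_cases j <;> simp
    have h2 : ∏ i, (TT s (uu p i)).card = (TT s 0).card * ∏ i ∈ univ.erase j, (TT s (uu p i)).card := by
      rw [← Finset.mul_prod_erase univ _ (mem_univ j), hj]
    have h3 : ∏ i ∈ univ.erase j, (TT s (uu p i)).card ≤ ∑ i ∈ univ.erase j, Tn s (uu p i) ^ 4 := by
      rw [Finset.prod_congr rfl h1]
      refine prod_le_four _ ?_ ?_ _
      · refine Finset.card_pos.1 ?_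
        rw [Finset.card_erase_of_mem (mem_univ j), Finset.card_univ, Fintype.card_fin]
        norm_num
      · rw [Finset.card_erase_of_mem (mem_univ j), Finset.card_univ, Fintype.card_fin]
        norm_num
    have h4 : ∑ i ∈ univ.erase j, Tn s (uu p i) ^ 4 ≤
        ∑ j, ∑ i ∈ univ.erase j, Tn s (uu p i) ^ 4 * (if uu p j = 0 then 1 else 0) := by
      refine le_trans (le_of_eq ?_) (Finset.single_le_sum
        (f := fun j => ∑ i ∈ univ.erase j, Tn s (uu p i) ^ 4 * (if uu p j = 0 then 1 else 0))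
        (fun i _ => Nat.zero_le _) (mem_univ j))
      simp only [hj, if_true, mul_one]
    rw [h2]
    exact (Nat.mul_le_mul (TT_zero s) (h3.trans h4)).trans (Nat.le_add_left _ _)
  · push Not at h
    have h1 : ∀ i ∈ (univ : Finset (Fin 4)), (TT s (uu p i)).card = Tn s (uu p i) := by
      intro i _
      unfold Tn
      rw [if_neg (h i)]
    rw [Finset.prod_congr rfl h1]
    refine le_trans (prod_le_four _ ⟨0, mem_univ _⟩ (by rw [Finset.card_univ, Fintype.card_fin]) _) ?_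
    simp only [mul_one]
    exact Nat.le_add_right _ _

theorem sum_le (s : ℕ) (N : ℤ) :
    ∑ p ∈ Icc (-N) N ×ˢ Icc (-N) N, ∏ i, (TT s (uu p i)).card ≤
      (4 * s + 2) ^ 4 + (4 * (Icc (-(5 * N)) (5 * N)).card + 12 * (4 * s + 2)) *
        ∑ x ∈ Icc (-(5 * N)) (5 * N), Tn s x ^ 4 := by
  classical
  obtain ⟨G, hG⟩ : ∃ G : ℕ, G = ∑ x ∈ Icc (-(5 * N)) (5 * N), Tn s x ^ 4 := ⟨_, rfl⟩
  rw [← hG]
  have hone : ∀ p ∈ Icc (-N) N ×ˢ Icc (-N) N, ∏ i, (TT s (uu p i)).card ≤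
      (if p = 0 then (4 * s + 2) ^ 4 else 0) + (∑ i, Tn s (uu p i) ^ 4 * 1 +
      (4 * s + 2) * ∑ j, ∑ i ∈ univ.erase j, Tn s (uu p i) ^ 4 * (if uu p j = 0 then 1 else 0)) := by
    intro p _
    by_cases hp : p = 0
    · rw [if_pos hp]
      refine le_trans ?_ (Nat.le_add_right _ _)
      have e : ∀ i ∈ (univ : Finset (Fin 4)), (TT s (uu p i)).card ≤ 4 * s + 2 := by
        intro i _
        have : uu p i = 0 := by
          rw [hp]
          unfold uu
          fin_cases i <;> simp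
        rw [this]
        exact TT_zero s
      refine (Finset.prod_le_prod' e).trans (le_of_eq ?_)
      rw [Finset.prod_const, Finset.card_univ, Fintype.card_fin]
    · rw [if_neg hp, zero_add]
      exact pt_le s p hp
  refine (Finset.sum_le_sum hone).trans ?_
  rw [Finset.sum_add_distrib, Finset.sum_add_distrib]
  have a1 : ∑ p ∈ Icc (-N) N ×ˢ Icc (-N) N, (if p = 0 then (4 * s + 2) ^ 4 else 0) ≤ (4 * s + 2) ^ 4 := by
    rw [Finset.sum_ite_eq' (Icc (-N) N ×ˢ Icc (-N) N) (0 : ℤ × ℤ) (fun _ => (4 * s + 2) ^ 4)]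
    split_ifs
    · exact le_rfl
    · exact Nat.zero_le _
  have a2 : ∑ p ∈ Icc (-N) N ×ˢ Icc (-N) N, ∑ i, Tn s (uu p i) ^ 4 * 1 ≤
      4 * ((Icc (-(5 * N)) (5 * N)).card * G) := by
    rw [Finset.sum_comm]
    have h : ∀ i ∈ (univ : Finset (Fin 4)), ∑ p ∈ Icc (-N) N ×ˢ Icc (-N) N, Tn s (uu p i) ^ 4 * 1 ≤
        (Icc (-(5 * N)) (5 * N)).card * G := by
      intro i _
      obtain ⟨j, hj⟩ : ∃ j : Fin 4, i ≠ j := by
        by_cases h0 : i = 0
        · exact ⟨1, by rw [h0]; decide⟩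
        · exact ⟨0, h0⟩
      have h1 := sum_two N (fun x => Tn s x ^ 4) (fun _ => 1) i j hj
      refine h1.trans (le_of_eq ?_)
      rw [← hG, Finset.card_eq_sum_ones]
      ring
    refine (Finset.sum_le_sum h).trans (le_of_eq ?_)
    rw [Finset.sum_const, Finset.card_univ, Fintype.card_fin, smul_eq_mul]
  have a3 : ∑ p ∈ Icc (-N) N ×ˢ Icc (-N) N, (4 * s + 2) * ∑ j, ∑ i ∈ univ.erase j,
      Tn s (uu p i) ^ 4 * (if uu p j = 0 then 1 else 0) ≤ (4 * s + 2) * (12 * G) := by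
    rw [← Finset.mul_sum]
    refine Nat.mul_le_mul_left _ ?_
    rw [Finset.sum_comm]
    have h : ∀ j ∈ (univ : Finset (Fin 4)), ∑ p ∈ Icc (-N) N ×ˢ Icc (-N) N, ∑ i ∈ univ.erase j,
        Tn s (uu p i) ^ 4 * (if uu p j = 0 then 1 else 0) ≤ 3 * G := by
      intro j _
      rw [Finset.sum_comm]
      have h2 : ∀ i ∈ univ.erase j, ∑ p ∈ Icc (-N) N ×ˢ Icc (-N) N,
          Tn s (uu p i) ^ 4 * (if uu p j = 0 then 1 else 0) ≤ G := by
        intro i hi
        rw [mem_erase] at hi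
        have h1 := sum_two N (fun x => Tn s x ^ 4) (fun y => if y = 0 then 1 else 0) i j hi.1
        refine h1.trans ?_
        rw [← hG]
        have h3 : ∑ y ∈ Icc (-(5 * N)) (5 * N), (if y = 0 then 1 else 0) ≤ 1 := by
          rw [Finset.sum_ite_eq' (Icc (-(5 * N)) (5 * N)) (0 : ℤ) (fun _ => 1)]
          split_ifs
          · exact le_rfl
          · exact Nat.zero_le _
        calc G * ∑ y ∈ Icc (-(5 * N)) (5 * N), (if y = 0 then 1 else 0) ≤ G * 1 := Nat.mul_le_mul_left _ h3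
          _ = G := mul_one G
      refine (Finset.sum_le_sum h2).trans (le_of_eq ?_)
      rw [Finset.sum_const, Finset.card_erase_of_mem (mem_univ j), Finset.card_univ, Fintype.card_fin, smul_eq_mul]
    refine (Finset.sum_le_sum h).trans (le_of_eq ?_)
    rw [Finset.sum_const, Finset.card_univ, Fintype.card_fin, smul_eq_mul]
    ring
  calc _ ≤ (4 * s + 2) ^ 4 + (4 * ((Icc (-(5 * N)) (5 * N)).card * G) + (4 * s + 2) * (12 * G)) :=
        Nat.add_le_add a1 (Nat.add_le_add a2 a3)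
    _ = _ := by ring

end Pool.Agent.U996.FQ
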